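import Pool.Agent.Helper74.UB.Goals4

namespace Pool.Agent.Helper4.UB

open Finset Equiv Helper28.VF Pool.Agent.Helper74.UB
open scoped Classical

theorem tp_char {V J : Type} [Fintype V] (row : V → ℤ) (y : ℤ) (B : Finset (V ⊕ J)) :
    y ≤ tp row y B ∧ (∀ v, Sum.inl v ∈ B → row v ≤ tp row y B) ∧
      (tp row y B = y ∨ ∃ v, Sum.inl v ∈ B ∧ row v = tp row y B) := by
  refine ⟨?_, ?_, ?_⟩
  · unfold tp
    exact le_max' _ _ (mem_insert_self _ _)
  · intro v hv
    unfold tp
    apply le_max'
    apply mem_insert_of_mem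
    exact mem_image.2 ⟨v, mem_filter.2 ⟨mem_univ _, hv⟩, rfl⟩
  · have h := max'_mem (insert y ((univ.filter fun v => Sum.inl v ∈ B).image row))
      (insert_nonempty _ _)
    rcases mem_insert.1 h with h | h
    · left
      exact h
    · right
      obtain ⟨v, hv, e⟩ := mem_image.1 h
      exact ⟨v, (mem_filter.1 hv).2, e⟩

theorem bt_char {V J : Type} [Fintype V] (row : V → ℤ) (y : ℤ) (B : Finset (V ⊕ J)) :
    bt row y B ≤ y ∧ (∀ v, Sum.inl v ∈ B → bt row y B ≤ row v) ∧
      (bt row y B = y ∨ ∃ v, Sum.inl v ∈ B ∧ row v = bt row y B) := by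
  refine ⟨?_, ?_, ?_⟩
  · unfold bt
    exact min'_le _ _ (mem_insert_self _ _)
  · intro v hv
    unfold bt
    apply min'_le
    apply mem_insert_of_mem
    exact mem_image.2 ⟨v, mem_filter.2 ⟨mem_univ _, hv⟩, rfl⟩
  · have h := min'_mem (insert y ((univ.filter fun v => Sum.inl v ∈ B).image row))
      (insert_nonempty _ _)
    rcases mem_insert.1 h with h | h
    · left
      exact h
    · right
      obtain ⟨v, hv, e⟩ := mem_image.1 h
      exact ⟨v, (mem_filter.1 hv).2, e⟩

/-- **TPF.** -/
theorem tpf : StmtTpF := by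
  intro V J _ row y B
  refine ⟨tp_char row y B, bt_char row y B, ?_, ?_⟩
  · intro B' hB
    constructor
    · obtain ⟨h1, h2, h3⟩ := tp_char row y B
      obtain ⟨k1, k2, k3⟩ := tp_char row y B'
      rcases h3 with h3 | ⟨v, hv, h3⟩
      · omega
      · rw [← h3]
        exact k2 v (hB hv)
    · obtain ⟨h1, h2, h3⟩ := bt_char row y B
      obtain ⟨k1, k2, k3⟩ := bt_char row y B'
      rcases h3 with h3 | ⟨v, hv, h3⟩
      · omega
      · rw [← h3]
        exact k2 v (hB hv)
  · intro h
    obtain ⟨h1, h2, h3⟩ := tp_char row y B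
    obtain ⟨k1, k2, k3⟩ := bt_char row y B
    obtain ⟨a1, a2, a3⟩ := tp_char (fun v => h - row v) (h - y) B
    obtain ⟨b1, b2, b3⟩ := bt_char (fun v => h - row v) (h - y) B
    constructor
    · apply le_antisymm
      · rcases a3 with a3 | ⟨v, hv, a3⟩
        · omega
        · have := k2 v hv
          omega
      · rcases k3 with k3 | ⟨v, hv, k3⟩
        · omega
        · have := a2 v hv
          omega
    · apply le_antisymm
      · rcases h3 with h3 | ⟨v, hv, h3⟩
        · omega
        · have := b2 v hv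
          omega
      · rcases b3 with b3 | ⟨v, hv, b3⟩
        · omega
        · have := h2 v hv
          omega

end Pool.Agent.Helper4.UB
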